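import Pool.Agent.BEW.StmtsD

/-!
# Squad BEW, row LVD (helper40)
-/

set_option autoImplicit false

namespace Pool.Agent.BEW.H40

open Set Filter Topology MeasureTheory
open scoped InnerProductSpace ENNReal
open Pool.Agent.BE01 Pool.Agent.BEL Pool.Agent.BEG Pool.Agent.BEH Pool.Agent.BER
open Pool.Agent.BEW

noncomputable section

/-- Bounded and measurable. -/
structure Bm {X : Type} [MeasurableSpace X] (u : X → ℝ) : Prop where
  me : Measurable u
  bd : ∃ C : ℝ, ∀ x, |u x| ≤ C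

section bm

variable {X : Type} [MeasurableSpace X]

lemma Bm.add {u w : X → ℝ} (hu : Bm u) (hw : Bm w) : Bm (fun x => u x + w x) := by
  obtain ⟨C, hC⟩ := hu.bd
  obtain ⟨D, hD⟩ := hw.bd
  exact ⟨hu.me.add hw.me, C + D, fun x => (abs_add_le _ _).trans (add_le_add (hC x) (hD x))⟩

lemma Bm.mul {u w : X → ℝ} (hu : Bm u) (hw : Bm w) : Bm (fun x => u x * w x) := by
  obtain ⟨C, hC⟩ := hu.bd
  obtain ⟨D, hD⟩ := hw.bd
  refine ⟨hu.me.mul hw.me, C * D, fun x => ?_⟩
  rw [abs_mul]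
  exact mul_le_mul (hC x) (hD x) (abs_nonneg _) ((abs_nonneg _).trans (hC x))

lemma Bm.const (c : ℝ) : Bm (fun _ : X => c) := ⟨measurable_const, |c|, fun _ => le_refl _⟩

lemma Bm.sub {u w : X → ℝ} (hu : Bm u) (hw : Bm w) : Bm (fun x => u x - w x) := by
  obtain ⟨C, hC⟩ := hu.bd
  obtain ⟨D, hD⟩ := hw.bd
  exact ⟨hu.me.sub hw.me, C + D, fun x => (abs_sub _ _).trans (add_le_add (hC x) (hD x))⟩

lemma Bm.abs {u : X → ℝ} (hu : Bm u) : Bm (fun x => |u x|) := by
  obtain ⟨C, hC⟩ := hu.bd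
  exact ⟨hu.me.abs, C, fun x => by rw [abs_abs]; exact hC x⟩

lemma Bm.sq {u : X → ℝ} (hu : Bm u) : Bm (fun x => u x ^ 2) := by
  have h := hu.mul hu
  have e : (fun x => u x ^ 2) = fun x => u x * u x := by funext x; ring
  rw [e]; exact h

lemma Bm.rpw {u : X → ℝ} (hu : Bm u) {al : ℝ} (hal : 0 < al) : Bm (fun x => |u x| ^ al) := by
  obtain ⟨C, hC⟩ := hu.bd
  refine ⟨hu.me.abs.pow_const al, C ^ al, fun x => ?_⟩
  rw [abs_of_nonneg (Real.rpow_nonneg (abs_nonneg _) _)]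
  exact Real.rpow_le_rpow (abs_nonneg _) (hC x) hal.le

lemma Bm.sum {ι : Type} (S : Finset ι) {u : ι → X → ℝ} (hu : ∀ i, Bm (u i)) (c : ι → ℝ) :
    Bm (fun x => ∑ i ∈ S, c i * u i x) := by
  classical
  induction S using Finset.induction_on with
  | empty => simpa using Bm.const (X := X) 0
  | insert i S hi ih =>
    have e : (fun x => ∑ j ∈ insert i S, c j * u j x) =
        fun x => c i * u i x + ∑ j ∈ S, c j * u j x := by
      funext x; rw [Finset.sum_insert hi]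
    rw [e]
    exact ((Bm.const (c i)).mul (hu i)).add ih

lemma Bm.int {μ : Measure X} [IsFiniteMeasure μ] {u : X → ℝ} (hu : Bm u) : Integrable u μ := by
  obtain ⟨C, hC⟩ := hu.bd
  exact Integrable.of_bound hu.me.aestronglyMeasurable C
    (Filter.Eventually.of_forall fun x => by rw [Real.norm_eq_abs]; exact hC x)

end bm

/-- An integral is bounded by the integral of a bound. -/
lemma ibd {X : Type} [MeasurableSpace X] {μ : Measure X} [IsFiniteMeasure μ] {u w : X → ℝ}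
    (hw : Bm w) (h : ∀ x, |u x| ≤ w x) : |∫ x, u x ∂μ| ≤ ∫ x, w x ∂μ := by
  rw [← Real.norm_eq_abs]
  exact norm_integral_le_of_norm_le hw.int (Filter.Eventually.of_forall fun x => by
    rw [Real.norm_eq_abs]; exact h x)

/-- The pairing with `|b|^al b`. -/
lemma pair {X : Type} [MeasurableSpace X] {μ : Measure X} [IsFiniteMeasure μ] {b u : X → ℝ}
    {al B κ : ℝ} (hal : 0 < al) (hκ : 0 < κ) (hb : Bm b) (hu : Bm u)
    (hB : ∀ x, |b x| ≤ B) (h1 : ∫ x, b x ^ 2 ∂μ = 1) (h2 : ∫ x, u x ^ 2 ∂μ ≤ κ ^ 2) :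
    |∫ x, |b x| ^ al * b x * u x ∂μ| ≤ B ^ al * κ := by
  have hb2 := hb.sq
  have hu2 := hu.sq
  have h := ibd (μ := μ) (u := fun x => |b x| ^ al * b x * u x)
    (w := fun x => B ^ al * (κ / 2) * b x ^ 2 + B ^ al * (1 / (2 * κ)) * u x ^ 2)
    (((Bm.const _).mul hb2).add ((Bm.const _).mul hu2)) (fun x => by
      have hB0 : 0 ≤ B := (abs_nonneg _).trans (hB x)
      have h3 : |b x| ^ al ≤ B ^ al := Real.rpow_le_rpow (abs_nonneg _) (hB x) hal.le
      have h4 : 0 ≤ |b x| ^ al := Real.rpow_nonneg (abs_nonneg _) _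
      rw [abs_mul, abs_mul, abs_of_nonneg h4]
      have h5 : |b x| * |u x| ≤ κ / 2 * b x ^ 2 + 1 / (2 * κ) * u x ^ 2 := by
        have h6 : 0 ≤ (κ * |b x| - |u x|) ^ 2 := sq_nonneg _
        have h7 : κ / 2 * b x ^ 2 + 1 / (2 * κ) * u x ^ 2 - |b x| * |u x| =
            1 / (2 * κ) * (κ * |b x| - |u x|) ^ 2 := by
          rw [← sq_abs (b x), ← sq_abs (u x)]
          field_simp
          ring
        have h8 : 0 ≤ 1 / (2 * κ) * (κ * |b x| - |u x|) ^ 2 := by positivity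
        linarith
      have h9 : 0 ≤ |b x| * |u x| := by positivity
      calc |b x| ^ al * |b x| * |u x| = |b x| ^ al * (|b x| * |u x|) := by ring
        _ ≤ B ^ al * (κ / 2 * b x ^ 2 + 1 / (2 * κ) * u x ^ 2) :=
          mul_le_mul h3 h5 h9 (Real.rpow_nonneg hB0 _)
        _ = _ := by ring)
  refine h.trans ?_
  rw [integral_add ((Bm.const _).mul hb2).int ((Bm.const _).mul hu2).int, integral_const_mul,
    integral_const_mul, h1]
  have hx : ∃ x : X, True := by
    by_contra hne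
    push Not at hne
    have he : IsEmpty X := ⟨fun x => hne x⟩
    have : ∫ x, b x ^ 2 ∂μ = 0 := by
      rw [Measure.eq_zero_of_isEmpty μ]; simp
    rw [h1] at this
    exact one_ne_zero this
  obtain ⟨x0, -⟩ := hx
  have hB0 : 0 ≤ B := (abs_nonneg _).trans (hB x0)
  have hBa : 0 ≤ B ^ al := Real.rpow_nonneg hB0 _
  have h10 : 1 / (2 * κ) * ∫ x, u x ^ 2 ∂μ ≤ κ / 2 := by
    have h11 : 1 / (2 * κ) * ∫ x, u x ^ 2 ∂μ ≤ 1 / (2 * κ) * κ ^ 2 :=
      mul_le_mul_of_nonneg_left h2 (by positivity)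
    have h12 : 1 / (2 * κ) * κ ^ 2 = κ / 2 := by field_simp
    linarith
  nlinarith [mul_le_mul_of_nonneg_left h10 hBa]

/-- The comparison at a fixed time. -/
lemma stp {X : Type} [MeasurableSpace X] {μ : Measure X} [IsFiniteMeasure μ]
    {b0 h ht f : X → ℝ} {al B CT CF R δ σ v0 V c0 s0 : ℝ}
    (hal : 0 < al) (hB0 : 0 < B) (hCT : 0 < CT) (hCF : 0 < CF) (hR : 0 < R) (hδ : 0 < δ)
    (hσ : 0 ≤ σ) (hδR : δ ≤ CF * R)
    (hb : Bm b0) (hh : Bm h) (hht : Bm ht) (hf : Bm f) (hB : ∀ x, |b0 x| ≤ B)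
    (h1 : ∫ x, b0 x ^ 2 ∂μ = 1) (hv : |v0| ≤ 2 * R) (hc : |c0| ≤ R) (hs : |s0| ≤ 2 * R)
    (hvc : |v0 - c0| ≤ δ) (hVs : |V + s0| ≤ δ)
    (hht2 : ∫ x, ht x ^ 2 ∂μ ≤ (4 * R) ^ 2) (hf2 : ∫ x, f x ^ 2 ∂μ ≤ (4 * R) ^ 2)
    (hd2 : ∫ x, (ht x - f x) ^ 2 ∂μ ≤ δ ^ 2)
    (hhσ : ∀ x, |h x| ≤ σ * R) (hhB : ∀ x, |h x| ≤ 16 * B * R)
    (tay : ∀ c h D : ℝ, 0 < D → |c| ≤ D → |h| ≤ D →
      |(|c + h| ^ al) - |c| ^ al| ≤ CT * D ^ (al - min al 1) * |h| ^ (min al 1)) :
    |(∫ x, |v0 * b0 x + h x| ^ al * (V * b0 x + ht x) * ht x ∂μ) -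
      (|c0| ^ al * (∫ x, |b0 x| ^ al * f x ^ 2 ∂μ) -
        |c0| ^ al * s0 * ∫ x, |b0 x| ^ al * b0 x * f x ∂μ)| ≤
      CT * (16 * B * R) ^ (al - min al 1) * (σ * R) ^ (min al 1) *
        (((CF + 2) * R) ^ 2 / 2 + 24 * R ^ 2) +
      CT * (3 * R) ^ (al - min al 1) * δ ^ (min al 1) *
        (B ^ al * (16 * R ^ 2) + (CF + 2) * R * (B ^ al * (4 * R))) +
      R ^ al * (B ^ al * (33 * δ * R) + δ * (B ^ al * (4 * R)) + 2 * R * (B ^ al * δ)) := by
  have hm0 : 0 < min al 1 := lt_min hal one_pos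
  have hal0 : ∀ y : ℝ, 0 ≤ |y| ^ al := fun y => Real.rpow_nonneg (abs_nonneg _) _
  have hBa : 0 ≤ B ^ al := Real.rpow_nonneg hB0.le _
  have hRa : 0 ≤ R ^ al := Real.rpow_nonneg hR.le _
  have hbB : ∀ x, |b0 x| ^ al ≤ B ^ al := fun x =>
    Real.rpow_le_rpow (abs_nonneg _) (hB x) hal.le
  -- the derivative of the first mode
  have hV : |V| ≤ (CF + 2) * R := by
    have h2 : |V| ≤ |V + s0| + |s0| := by
      have h3 := abs_sub (V + s0) s0
      simpa using h3
    nlinarith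
  -- the constants
  set K0 : ℝ := CT * (16 * B * R) ^ (al - min al 1) * (σ * R) ^ (min al 1) with hK0
  have hK00 : 0 ≤ K0 := by rw [hK0]; positivity
  set E0 : ℝ := CT * (3 * R) ^ (al - min al 1) * δ ^ (min al 1) with hE0
  have hE00 : 0 ≤ E0 := by rw [hE0]; positivity
  set J1 : ℝ := ∫ x, |b0 x| ^ al * ht x ^ 2 ∂μ with hJ1
  set J2 : ℝ := ∫ x, |b0 x| ^ al * b0 x * ht x ∂μ with hJ2
  set L1 : ℝ := ∫ x, |b0 x| ^ al * f x ^ 2 ∂μ with hL1
  set L2 : ℝ := ∫ x, |b0 x| ^ al * b0 x * f x ∂μ with hL2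
  have hba : Bm (fun x => |b0 x| ^ al) := hb.rpw hal
  -- Step 1
  have s1 : |(∫ x, |v0 * b0 x + h x| ^ al * (V * b0 x + ht x) * ht x ∂μ) -
      |v0| ^ al * (J1 + V * J2)| ≤ K0 * (((CF + 2) * R) ^ 2 / 2 + 24 * R ^ 2) := by
    have i1 : Bm (fun x => |v0 * b0 x + h x| ^ al * (V * b0 x + ht x) * ht x) :=
      ((((Bm.const v0).mul hb).add hh).rpw hal |>.mul (((Bm.const V).mul hb).add hht)).mul hht
    have i2 : Bm (fun x => |b0 x| ^ al * ht x ^ 2) := hba.mul hht.sq
    have i3 : Bm (fun x => |b0 x| ^ al * b0 x * ht x) := (hba.mul hb).mul hht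
    have e1 : (∫ x, |v0 * b0 x + h x| ^ al * (V * b0 x + ht x) * ht x ∂μ) -
        |v0| ^ al * (J1 + V * J2) =
        ∫ x, (|v0 * b0 x + h x| ^ al * (V * b0 x + ht x) * ht x -
          (|v0| ^ al * (|b0 x| ^ al * ht x ^ 2) +
            |v0| ^ al * V * (|b0 x| ^ al * b0 x * ht x))) ∂μ := by
      have e2 := integral_sub (μ := μ) i1.int
        (((Bm.const (|v0| ^ al)).mul i2).add ((Bm.const (|v0| ^ al * V)).mul i3)).int
      have e3 := integral_add (μ := μ) ((Bm.const (|v0| ^ al)).mul i2).int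
        ((Bm.const (|v0| ^ al * V)).mul i3).int
      rw [e2, e3, integral_const_mul, integral_const_mul]
      ring
    rw [e1]
    have i4 : Bm (fun x => K0 * (V ^ 2 / 2) * b0 x ^ 2 + K0 * (3 / 2) * ht x ^ 2) :=
      ((Bm.const _).mul hb.sq).add ((Bm.const _).mul hht.sq)
    refine (ibd (μ := μ) i4 (fun x => ?_)).trans ?_
    · have e4 : |v0 * b0 x + h x| ^ al * (V * b0 x + ht x) * ht x -
          (|v0| ^ al * (|b0 x| ^ al * ht x ^ 2) +
            |v0| ^ al * V * (|b0 x| ^ al * b0 x * ht x)) =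
          (|v0 * b0 x + h x| ^ al - |v0 * b0 x| ^ al) * ((V * b0 x + ht x) * ht x) := by
        have e5 : |v0 * b0 x| ^ al = |v0| ^ al * |b0 x| ^ al := by
          rw [abs_mul, Real.mul_rpow (abs_nonneg _) (abs_nonneg _)]
        rw [e5]
        ring
      rw [e4, abs_mul]
      have hcx : |v0 * b0 x| ≤ 16 * B * R := by
        rw [abs_mul]
        have := mul_le_mul hv (hB x) (abs_nonneg _) (by positivity)
        nlinarith
      have t1 := tay (v0 * b0 x) (h x) (16 * B * R) (by positivity) hcx (hhB x)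
      have t2 : |h x| ^ (min al 1) ≤ (σ * R) ^ (min al 1) :=
        Real.rpow_le_rpow (abs_nonneg _) (hhσ x) hm0.le
      have t3 : |(|v0 * b0 x + h x| ^ al) - |v0 * b0 x| ^ al| ≤ K0 :=
        t1.trans (mul_le_mul_of_nonneg_left t2 (by positivity))
      have t4 : |(V * b0 x + ht x) * ht x| ≤ V ^ 2 / 2 * b0 x ^ 2 + 3 / 2 * ht x ^ 2 := by
        rw [abs_le]
        constructor
        · nlinarith [sq_nonneg (V * b0 x + ht x), sq_nonneg (V * b0 x), sq_nonneg (ht x)]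
        · nlinarith [sq_nonneg (V * b0 x - ht x), sq_nonneg (V * b0 x), sq_nonneg (ht x)]
      calc |(|v0 * b0 x + h x| ^ al) - |v0 * b0 x| ^ al| * |(V * b0 x + ht x) * ht x|
          ≤ K0 * (V ^ 2 / 2 * b0 x ^ 2 + 3 / 2 * ht x ^ 2) :=
            mul_le_mul t3 t4 (abs_nonneg _) hK00
        _ = _ := by ring
    · have e6 := integral_add (μ := μ) ((Bm.const (K0 * (V ^ 2 / 2))).mul hb.sq).int
        ((Bm.const (K0 * (3 / 2))).mul hht.sq).int
      rw [e6, integral_const_mul, integral_const_mul, h1]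
      have hV2 : V ^ 2 ≤ ((CF + 2) * R) ^ 2 := by
        rw [← sq_abs V]
        exact pow_le_pow_left₀ (abs_nonneg _) hV 2
      have t5 := mul_le_mul_of_nonneg_left hV2 hK00
      have t6 := mul_le_mul_of_nonneg_left hht2 hK00
      nlinarith
  -- Step 2
  have s2 : |J2| ≤ B ^ al * (4 * R) := pair hal (by positivity) hb hht hB h1 hht2
  have s2a : |J1| ≤ B ^ al * (16 * R ^ 2) := by
    refine (ibd (μ := μ) ((Bm.const (B ^ al)).mul hht.sq) (fun x => ?_)).trans ?_
    · rw [abs_mul, abs_of_nonneg (hal0 (b0 x)), abs_of_nonneg (sq_nonneg (ht x))]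
      exact mul_le_mul_of_nonneg_right (hbB x) (sq_nonneg _)
    · rw [integral_const_mul]
      have := mul_le_mul_of_nonneg_left hht2 hBa
      nlinarith
  -- Step 3
  have s3 : |J1 - L1| ≤ B ^ al * (33 * δ * R) := by
    have e1 : J1 - L1 = ∫ x, (|b0 x| ^ al * ht x ^ 2 - |b0 x| ^ al * f x ^ 2) ∂μ := by
      rw [integral_sub (hba.mul hht.sq).int (hba.mul hf.sq).int]
    rw [e1]
    have i5 : Bm (fun x => B ^ al * (R / (2 * δ)) * (ht x - f x) ^ 2 +
        (B ^ al * (δ / R) * ht x ^ 2 + B ^ al * (δ / R) * f x ^ 2)) :=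
      ((Bm.const _).mul (hht.sub hf).sq).add
        (((Bm.const _).mul hht.sq).add ((Bm.const _).mul hf.sq))
    refine (ibd (μ := μ) i5 (fun x => ?_)).trans ?_
    · have e2 : |b0 x| ^ al * ht x ^ 2 - |b0 x| ^ al * f x ^ 2 =
          |b0 x| ^ al * ((ht x - f x) * (ht x + f x)) := by ring
      rw [e2, abs_mul, abs_of_nonneg (hal0 _)]
      have t1 : |(ht x - f x) * (ht x + f x)| ≤ R / (2 * δ) * (ht x - f x) ^ 2 +
          (δ / R * ht x ^ 2 + δ / R * f x ^ 2) := by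
        have t2 : |(ht x - f x) * (ht x + f x)| ≤ R / (2 * δ) * (ht x - f x) ^ 2 +
            δ / (2 * R) * (ht x + f x) ^ 2 := by
          rw [abs_mul, ← sq_abs (ht x - f x), ← sq_abs (ht x + f x)]
          have t3 : R / (2 * δ) * |ht x - f x| ^ 2 + δ / (2 * R) * |ht x + f x| ^ 2 -
              |ht x - f x| * |ht x + f x| =
              1 / (2 * R * δ) * (R * |ht x - f x| - δ * |ht x + f x|) ^ 2 := by
            field_simp
            ring
          have t4 : 0 ≤ 1 / (2 * R * δ) * (R * |ht x - f x| - δ * |ht x + f x|) ^ 2 := by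
            positivity
          linarith
        have t5 : δ / (2 * R) * (ht x + f x) ^ 2 ≤ δ / R * ht x ^ 2 + δ / R * f x ^ 2 := by
          have t6 : δ / R * ht x ^ 2 + δ / R * f x ^ 2 - δ / (2 * R) * (ht x + f x) ^ 2 =
              δ / (2 * R) * (ht x - f x) ^ 2 := by
            field_simp
            ring
          have t7 : 0 ≤ δ / (2 * R) * (ht x - f x) ^ 2 := by positivity
          linarith
        linarith
      calc |b0 x| ^ al * |(ht x - f x) * (ht x + f x)| ≤ B ^ al *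
            (R / (2 * δ) * (ht x - f x) ^ 2 + (δ / R * ht x ^ 2 + δ / R * f x ^ 2)) :=
            mul_le_mul (hbB x) t1 (abs_nonneg _) hBa
        _ = _ := by ring
    · have e3 := integral_add (μ := μ)
        ((Bm.const (B ^ al * (R / (2 * δ)))).mul (hht.sub hf).sq).int
        (((Bm.const (B ^ al * (δ / R))).mul hht.sq).add
          ((Bm.const (B ^ al * (δ / R))).mul hf.sq)).int
      have e4 := integral_add (μ := μ) ((Bm.const (B ^ al * (δ / R))).mul hht.sq).int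
          ((Bm.const (B ^ al * (δ / R))).mul hf.sq).int
      rw [e3, e4, integral_const_mul, integral_const_mul, integral_const_mul]
      have q1 : B ^ al * (R / (2 * δ)) * ∫ x, (ht x - f x) ^ 2 ∂μ ≤
          B ^ al * (R / (2 * δ)) * δ ^ 2 := mul_le_mul_of_nonneg_left hd2 (by positivity)
      have q2 : B ^ al * (δ / R) * ∫ x, ht x ^ 2 ∂μ ≤
          B ^ al * (δ / R) * (4 * R) ^ 2 := mul_le_mul_of_nonneg_left hht2 (by positivity)
      have q3 : B ^ al * (δ / R) * ∫ x, f x ^ 2 ∂μ ≤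
          B ^ al * (δ / R) * (4 * R) ^ 2 := mul_le_mul_of_nonneg_left hf2 (by positivity)
      have q4 : B ^ al * (R / (2 * δ)) * δ ^ 2 = B ^ al * (R * δ / 2) := by
        field_simp
      have q5 : B ^ al * (δ / R) * (4 * R) ^ 2 = B ^ al * (16 * δ * R) := by
        field_simp
        ring
      have q6 : 0 ≤ B ^ al * (δ * R) := by positivity
      nlinarith
  -- Step 4
  have s4 : |J2 - L2| ≤ B ^ al * δ := by
    have e1 : J2 - L2 = ∫ x, |b0 x| ^ al * b0 x * (ht x - f x) ∂μ := by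
      rw [hJ2, hL2, ← integral_sub ((hba.mul hb).mul hht).int ((hba.mul hb).mul hf).int]
      refine integral_congr_ae (Filter.Eventually.of_forall fun x => ?_)
      simp only
      ring
    rw [e1]
    exact pair hal hδ hb (hht.sub hf) hB h1 hd2
  -- Step 5
  have s5 : |(|v0| ^ al) - |c0| ^ al| ≤ E0 := by
    have t1 := tay c0 (v0 - c0) (3 * R) (by positivity) (by linarith) (by
      have := abs_sub v0 c0
      linarith)
    rw [add_sub_cancel] at t1
    refine t1.trans (mul_le_mul_of_nonneg_left ?_ (by positivity))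
    exact Real.rpow_le_rpow (abs_nonneg _) hvc hm0.le
  have s6 : |c0| ^ al ≤ R ^ al := Real.rpow_le_rpow (abs_nonneg _) hc hal.le
  -- Step 6
  have d1 : (∫ x, |v0 * b0 x + h x| ^ al * (V * b0 x + ht x) * ht x ∂μ) -
      (|c0| ^ al * L1 - |c0| ^ al * s0 * L2) =
      ((∫ x, |v0 * b0 x + h x| ^ al * (V * b0 x + ht x) * ht x ∂μ) -
      |v0| ^ al * (J1 + V * J2)) + (|v0| ^ al - |c0| ^ al) * (J1 + V * J2) +
      |c0| ^ al * ((J1 - L1) + (V + s0) * J2 - s0 * (J2 - L2)) := by ring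
  rw [d1]
  have hVJ : |J1 + V * J2| ≤ B ^ al * (16 * R ^ 2) + (CF + 2) * R * (B ^ al * (4 * R)) := by
    refine (abs_add_le _ _).trans (add_le_add s2a ?_)
    rw [abs_mul]
    exact mul_le_mul hV s2 (abs_nonneg _) (by positivity)
  have hlast : |(J1 - L1) + (V + s0) * J2 - s0 * (J2 - L2)| ≤
      B ^ al * (33 * δ * R) + δ * (B ^ al * (4 * R)) + 2 * R * (B ^ al * δ) := by
    refine (abs_sub _ _).trans (add_le_add ((abs_add_le _ _).trans (add_le_add s3 ?_)) ?_)
    · rw [abs_mul]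
      exact mul_le_mul hVs s2 (abs_nonneg _) hδ.le
    · rw [abs_mul]
      exact mul_le_mul hs s4 (abs_nonneg _) (by positivity)
  refine (abs_add_le _ _).trans (add_le_add ((abs_add_le _ _).trans (add_le_add s1 ?_)) ?_)
  · rw [abs_mul]
    exact mul_le_mul s5 hVJ (abs_nonneg _) hE00
  · rw [abs_mul, abs_of_nonneg (hal0 _)]
    exact mul_le_mul s6 hlast (abs_nonneg _) hRa

/-- The free evolution is bounded. -/
lemma fre_bd {X : Type} {b : ℕ → X → ℝ} {B : ℝ} (hB : ∀ k x, |b k x| ≤ B) (om : ℕ → ℝ)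
    (S : Finset ℕ) (P V : ℕ → ℝ) (s : ℝ) (x : X) :
    |fre b om S P V s x| ≤ ∑ k ∈ S, (|V k| + |P k|) * B := by
  unfold fre
  refine (Finset.abs_sum_le_sum_abs _ _).trans (Finset.sum_le_sum fun k _ => ?_)
  rw [abs_mul]
  refine mul_le_mul ?_ (hB k x) (abs_nonneg _) (by positivity)
  refine (abs_sub _ _).trans (add_le_add ?_ ?_)
  · rw [abs_mul]
    exact mul_le_of_le_one_right (abs_nonneg _) (Real.abs_cos_le_one _)
  · rw [abs_mul]
    exact mul_le_of_le_one_right (abs_nonneg _) (Real.abs_sin_le_one _)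

lemma fre_cont {X : Type} (b : ℕ → X → ℝ) (om : ℕ → ℝ)
    (S : Finset ℕ) (P V : ℕ → ℝ) (x : X) : Continuous fun s => fre b om S P V s x := by
  unfold fre
  fun_prop

lemma fre_bm {X : Type} [MeasurableSpace X] {b : ℕ → X → ℝ} {B : ℝ} (hm : ∀ k, Measurable (b k))
    (hB : ∀ k x, |b k x| ≤ B) (om : ℕ → ℝ)
    (S : Finset ℕ) (P V : ℕ → ℝ) (s : ℝ) : Bm (fun x => fre b om S P V s x) :=
  Bm.sum S (fun k => ⟨hm k, B, hB k⟩) (fun k => V k * Real.cos (om k * s) -
    P k * Real.sin (om k * s))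

/-- Continuity of the first coefficient. -/
lemma cA {X : Type} [MeasurableSpace X] {μ : Measure X} [IsFiniteMeasure μ] {b : ℕ → X → ℝ}
    {B al : ℝ} (hal : 0 < al) (hm : ∀ k, Measurable (b k)) (hB : ∀ k x, |b k x| ≤ B)
    (om : ℕ → ℝ) (S : Finset ℕ) (P V : ℕ → ℝ) :
    Continuous fun s => ∫ x, |b 0 x| ^ al * fre b om S P V s x ^ 2 ∂μ := by
  have hbm : Bm (fun x => |b 0 x| ^ al) := Bm.rpw ⟨hm 0, B, hB 0⟩ hal
  refine continuous_of_dominated (bound := fun _ =>
    B ^ al * (∑ k ∈ S, (|V k| + |P k|) * B) ^ 2) (fun s => ?_) (fun s => ?_)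
    (integrable_const _) ?_
  · exact (hbm.mul (fre_bm hm hB om S P V s).sq).me.aestronglyMeasurable
  · refine Filter.Eventually.of_forall fun x => ?_
    rw [Real.norm_eq_abs, abs_mul, abs_of_nonneg (Real.rpow_nonneg (abs_nonneg (b 0 x)) _),
      abs_of_nonneg (sq_nonneg (fre b om S P V s x))]
    have h1 : |b 0 x| ^ al ≤ B ^ al := Real.rpow_le_rpow (abs_nonneg _) (hB 0 x) hal.le
    have h2 : fre b om S P V s x ^ 2 ≤ (∑ k ∈ S, (|V k| + |P k|) * B) ^ 2 := by
      rw [← sq_abs (fre b om S P V s x)]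
      exact pow_le_pow_left₀ (abs_nonneg _) (fre_bd hB om S P V s x) 2
    exact mul_le_mul h1 h2 (sq_nonneg _) ((Real.rpow_nonneg (abs_nonneg _) _).trans h1)
  · refine Filter.Eventually.of_forall fun x => ?_
    exact continuous_const.mul ((fre_cont b om S P V x).pow 2)

/-- Continuity of the second coefficient. -/
lemma cB {X : Type} [MeasurableSpace X] {μ : Measure X} [IsFiniteMeasure μ] {b : ℕ → X → ℝ}
    {B al : ℝ} (hal : 0 < al) (hm : ∀ k, Measurable (b k)) (hB : ∀ k x, |b k x| ≤ B)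
    (om : ℕ → ℝ) (S : Finset ℕ) (P V : ℕ → ℝ) :
    Continuous fun s => ∫ x, |b 0 x| ^ al * b 0 x * fre b om S P V s x ∂μ := by
  have hb0 : Bm (b 0) := ⟨hm 0, B, hB 0⟩
  have hbm : Bm (fun x => |b 0 x| ^ al) := hb0.rpw hal
  refine continuous_of_dominated (bound := fun _ =>
    B ^ al * B * (∑ k ∈ S, (|V k| + |P k|) * B)) (fun s => ?_) (fun s => ?_)
    (integrable_const _) ?_
  · exact ((hbm.mul hb0).mul (fre_bm hm hB om S P V s)).me.aestronglyMeasurable
  · refine Filter.Eventually.of_forall fun x => ?_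
    rw [Real.norm_eq_abs, abs_mul, abs_mul,
      abs_of_nonneg (Real.rpow_nonneg (abs_nonneg (b 0 x)) _)]
    have h1 : |b 0 x| ^ al ≤ B ^ al := Real.rpow_le_rpow (abs_nonneg _) (hB 0 x) hal.le
    have h0 : 0 ≤ B ^ al := (Real.rpow_nonneg (abs_nonneg _) _).trans h1
    have hB0 : 0 ≤ B := (abs_nonneg _).trans (hB 0 x)
    exact mul_le_mul (mul_le_mul h1 (hB 0 x) (abs_nonneg _) h0) (fre_bd hB om S P V s x)
      (abs_nonneg _) (mul_nonneg h0 hB0)
  · refine Filter.Eventually.of_forall fun x => ?_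
    exact continuous_const.mul (fre_cont b om S P V x)

/-- The algebra of the constants. -/
lemma alg {al B CT CF R σ T m : ℝ} (hm1 : m ≤ 1)
    (hB0 : 0 < B) (hCT : 0 < CT) (hCF : 0 < CF) (hR : 0 < R) (hσ : 0 ≤ σ) (hT : 0 < T)
    (hTR : T * R ^ al ≤ 1) :
    CT * (16 * B * R) ^ (al - m) * (σ * R) ^ m * (((CF + 2) * R) ^ 2 / 2 + 24 * R ^ 2) +
      CT * (3 * R) ^ (al - m) * (CF * T * R ^ (al + 1)) ^ m *
        (B ^ al * (16 * R ^ 2) + (CF + 2) * R * (B ^ al * (4 * R))) +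
      R ^ al * (B ^ al * (33 * (CF * T * R ^ (al + 1)) * R) +
        (CF * T * R ^ (al + 1)) * (B ^ al * (4 * R)) +
        2 * R * (B ^ al * (CF * T * R ^ (al + 1)))) ≤
    (CT * (16 * B) ^ (al - m) * ((CF + 2) ^ 2 / 2 + 24) +
      CT * 3 ^ (al - m) * CF ^ m * B ^ al * (16 + 4 * (CF + 2)) + 39 * B ^ al * CF) *
      (σ ^ m + (T * R ^ al) ^ m) * R ^ (al + 2) := by
  have hRa : 0 < R ^ al := Real.rpow_pos_of_pos hR _
  have hτ0 : 0 < T * R ^ al := mul_pos hT hRa
  have hτm : T * R ^ al ≤ (T * R ^ al) ^ m := by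
    have h := Real.rpow_le_rpow_of_exponent_ge hτ0 hTR hm1
    rwa [Real.rpow_one] at h
  have e1 : (16 * B * R) ^ (al - m) = (16 * B) ^ (al - m) * R ^ (al - m) :=
    Real.mul_rpow (by positivity) hR.le
  have e2 : (σ * R) ^ m = σ ^ m * R ^ m := Real.mul_rpow hσ hR.le
  have e3 : R ^ (al - m) * R ^ m = R ^ al := by rw [← Real.rpow_add hR]; ring_nf
  have e4 : R ^ (al + 2) = R ^ al * R ^ 2 := by
    rw [Real.rpow_add hR]; norm_num
  have e5 : R ^ (al + 1) = R ^ al * R := by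
    rw [Real.rpow_add hR, Real.rpow_one]
  have e6 : CF * T * R ^ (al + 1) = CF * (T * R ^ al) * R := by rw [e5]; ring
  have e7 : (CF * T * R ^ (al + 1)) ^ m = CF ^ m * (T * R ^ al) ^ m * R ^ m := by
    rw [e6, Real.mul_rpow (by positivity) hR.le, Real.mul_rpow hCF.le hτ0.le]
  have e8 : (3 * R) ^ (al - m) = 3 ^ (al - m) * R ^ (al - m) :=
    Real.mul_rpow (by norm_num) hR.le
  rw [e7, e1, e2, e8, e6, e4]
  set τ : ℝ := T * R ^ al with hτ
  set a1 : ℝ := CT * (16 * B) ^ (al - m) * ((CF + 2) ^ 2 / 2 + 24) with ha1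
  set a2 : ℝ := CT * 3 ^ (al - m) * CF ^ m * B ^ al * (16 + 4 * (CF + 2)) with ha2
  set a3 : ℝ := 39 * B ^ al * CF with ha3
  have p1 : 0 ≤ a1 := by rw [ha1]; positivity
  have p2 : 0 ≤ a2 := by rw [ha2]; positivity
  have p3 : 0 ≤ a3 := by rw [ha3]; positivity
  have q1 : CT * ((16 * B) ^ (al - m) * R ^ (al - m)) * (σ ^ m * R ^ m) *
      (((CF + 2) * R) ^ 2 / 2 + 24 * R ^ 2) = a1 * σ ^ m * (R ^ al * R ^ 2) := by
    rw [ha1, ← e3]; ring
  have q2 : CT * (3 ^ (al - m) * R ^ (al - m)) * (CF ^ m * τ ^ m * R ^ m) *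
      (B ^ al * (16 * R ^ 2) + (CF + 2) * R * (B ^ al * (4 * R))) =
      a2 * τ ^ m * (R ^ al * R ^ 2) := by
    rw [ha2, ← e3]; ring
  have q3 : R ^ al * (B ^ al * (33 * (CF * τ * R) * R) + (CF * τ * R) * (B ^ al * (4 * R)) +
        2 * R * (B ^ al * (CF * τ * R))) = a3 * τ * (R ^ al * R ^ 2) := by
    rw [ha3]; ring
  rw [q1, q2, q3]
  have r0 : 0 ≤ R ^ al * R ^ 2 := by positivity
  have r1 : 0 ≤ σ ^ m := Real.rpow_nonneg hσ _
  have r2 : 0 ≤ τ ^ m := Real.rpow_nonneg hτ0.le _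
  have r3 : a3 * τ ≤ a3 * τ ^ m := mul_le_mul_of_nonneg_left hτm p3
  have r4 : a1 * σ ^ m + a2 * τ ^ m + a3 * τ ≤ (a1 + a2 + a3) * (σ ^ m + τ ^ m) := by
    nlinarith [mul_nonneg p1 r2, mul_nonneg p2 r1, mul_nonneg p3 r1]
  calc a1 * σ ^ m * (R ^ al * R ^ 2) + a2 * τ ^ m * (R ^ al * R ^ 2) + a3 * τ * (R ^ al * R ^ 2)
      = (a1 * σ ^ m + a2 * τ ^ m + a3 * τ) * (R ^ al * R ^ 2) := by ring
    _ ≤ ((a1 + a2 + a3) * (σ ^ m + τ ^ m)) * (R ^ al * R ^ 2) :=
      mul_le_mul_of_nonneg_right r4 r0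
    _ = _ := by ring

/-- Polar coordinates. -/
lemma polar {R x y : ℝ} (hR : 0 < R) (h : y ^ 2 + x ^ 2 = R ^ 2) :
    ∃ θ : ℝ, x = R * Real.cos θ ∧ y = R * Real.sin θ := by
  have hn : ‖(⟨x, y⟩ : ℂ)‖ = R := by
    have h1 : ‖(⟨x, y⟩ : ℂ)‖ ^ 2 = R ^ 2 := by
      rw [Complex.sq_norm, Complex.normSq_mk]
      nlinarith
    exact (sq_eq_sq₀ (norm_nonneg _) hR.le).mp h1
  refine ⟨Complex.arg ⟨x, y⟩, ?_, ?_⟩
  · have := Complex.norm_mul_cos_arg (⟨x, y⟩ : ℂ)
    rw [hn] at this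
    exact this.symm
  · have := Complex.norm_mul_sin_arg (⟨x, y⟩ : ℂ)
    rw [hn] at this
    exact this.symm

/-- The nonlinearity below the level `1`. -/
lemma qle {al s : ℝ} (h : |s| ≤ 1) : ql 1 al 1 s = (al + 1) * |s| ^ al := by
  unfold ql mm
  rw [min_eq_left h]
  ring

/-- LVD. -/
theorem lvd (tay : TayStmt) (der : DerStmt) (frw : FrwStmt) (bsl : BslStmt) : LvdStmt := by
  intro al B m0 hal hB0 hm00
  obtain ⟨CT, hCT, tayC⟩ := tay al hal
  obtain ⟨CF, hCF, frwC⟩ := frw al B m0 hal hB0 hm00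
  have hBa : 0 < B ^ al := Real.rpow_pos_of_pos hB0 _
  set CC : ℝ := CT * (16 * B) ^ (al - min al 1) * ((CF + 2) ^ 2 / 2 + 24) +
      CT * 3 ^ (al - min al 1) * CF ^ (min al 1) * B ^ al * (16 + 4 * (CF + 2)) +
      39 * B ^ al * CF with hCC
  have hCC0 : 0 < CC := by rw [hCC]; positivity
  refine ⟨2 * (al + 1) * CC, by positivity, ?_⟩
  intro X _ μ b om M p v γ ε η T t0 R σ ons frq hε hη hη1 hT avg w hTR hσ hhσ
  have hfin := ons.fin
  have hR := w.Rp
  have hT0 : 0 < T := lt_of_lt_of_le one_pos hT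
  have hRa : 0 < R ^ al := Real.rpow_pos_of_pos hR _
  obtain ⟨-, -, -, hS⟩ := der X μ b om M al B m0 p v hal ons w.one w.gal
  obtain ⟨-, pars⟩ := bsl X μ b B m0 ons
  -- first mode
  have hre := w.Re
  unfold R2 at hre
  obtain ⟨θ, hθc, hθs⟩ := polar hR hre
  set S : Finset ℕ := Finset.Ico 1 M with hSdef
  have h0S : 0 ∉ S := by rw [hSdef]; simp
  have hrange : Finset.range M = insert 0 S := by
    ext k
    simp only [Finset.mem_range, Finset.mem_insert, hSdef, Finset.mem_Ico]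
    have := w.one
    omega
  have hvel : ∀ (u : ℕ → ℝ → ℝ) (t : ℝ) (x : X),
      vel b (Finset.range M) u t x = u 0 t * b 0 x + vel b S u t x := by
    intro u t x
    unfold vel
    rw [hrange, Finset.sum_insert h0S]
  set P : ℕ → ℝ := fun k => om k * v k t0 with hP
  set V : ℕ → ℝ := fun k => dd v k t0 with hV
  have hnn : nn S P V = S2 om M v t0 := rfl
  set δ : ℝ := CF * T * R ^ (al + 1) with hδ
  have hδ0 : 0 < δ := by rw [hδ]; positivity
  have e5 : R ^ (al + 1) = R ^ al * R := by rw [Real.rpow_add hR, Real.rpow_one]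
  have hδR : δ ≤ CF * R := by
    rw [hδ, e5]
    have h1 : CF * T * (R ^ al * R) = (CF * R) * (T * R ^ al) := by ring
    rw [h1]
    exact mul_le_of_le_one_right (by positivity) hTR
  -- bounds for the free evolution
  have hfre2 : ∀ s, ∫ x, fre b om S P V s x ^ 2 ∂μ ≤ S2 om M v t0 := by
    intro s
    have h1 := pars S (fun k => V k * Real.cos (om k * s) - P k * Real.sin (om k * s))
    have h2 : (∫ x, fre b om S P V s x ^ 2 ∂μ) =
        ∑ k ∈ S, (V k * Real.cos (om k * s) - P k * Real.sin (om k * s)) ^ 2 := h1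
    rw [h2, ← hnn]
    unfold nn
    refine Finset.sum_le_sum fun k _ => ?_
    have h3 := Real.sin_sq_add_cos_sq (om k * s)
    nlinarith [sq_nonneg (V k * Real.sin (om k * s) + P k * Real.cos (om k * s))]
  set A : ℝ → ℝ := fun s => ∫ x, |b 0 x| ^ al * fre b om S P V s x ^ 2 ∂μ with hA
  set Bf : ℝ → ℝ := fun s => ∫ x, |b 0 x| ^ al * b 0 x * fre b om S P V s x ∂μ with hBf
  have hAc : Continuous A := cA hal ons.meas ons.bdd om S P V
  have hBc : Continuous Bf := cB hal ons.meas ons.bdd om S P V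
  set K : ℝ := CC * (σ ^ (min al 1) + (T * R ^ al) ^ (min al 1)) * R ^ (al + 2) with hK
  set φ : ℝ → ℝ := fun s => -(2 * (al + 1) * R ^ al) * (|Real.cos (om 0 * s + θ)| ^ al * A s) +
    (2 * (al + 1) * (om 0 * R ^ (al + 1))) *
      (|Real.cos (om 0 * s + θ)| ^ al * Real.sin (om 0 * s + θ) * Bf s) +
      2 * (al + 1) * K with hφ
  have hcosa : Continuous fun s : ℝ => |Real.cos (om 0 * s + θ)| ^ al := by
    refine Continuous.rpow_const (by fun_prop) (fun s => Or.inr hal.le)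
  have hsin : Continuous fun s : ℝ => Real.sin (om 0 * s + θ) := by fun_prop
  have hc1 : Continuous fun s => |Real.cos (om 0 * s + θ)| ^ al * A s := hcosa.mul hAc
  have hc2 : Continuous fun s => |Real.cos (om 0 * s + θ)| ^ al * Real.sin (om 0 * s + θ) *
      Bf s := (hcosa.mul hsin).mul hBc
  have hφc : Continuous φ := ((continuous_const.mul hc1).add (continuous_const.mul hc2)).add
    continuous_const
  -- the derivative
  set g' : ℝ → ℝ := fun s => -(2 * ∫ x, ql 1 al 1 (vel b (Finset.range M) v (t0 + s) x) *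
    vel b (Finset.range M) (dd v) (t0 + s) x * vel b S (dd v) (t0 + s) x ∂μ) with hg'
  have hder : ∀ s, HasDerivAt (fun s => S2 om M v (t0 + s)) (g' s) s := by
    intro s
    exact HasDerivAt.comp_const_add t0 s (hS (t0 + s))
  have hb0 : Bm (b 0) := ⟨ons.meas 0, B, ons.bdd 0⟩
  have hb : ∀ k, Bm (b k) := fun k => ⟨ons.meas k, B, ons.bdd k⟩
  have hom0 : 0 < om 0 := lt_of_lt_of_le (by norm_num) (frq.lo 0)
  have hom2 := frq.o0
  have key : ∀ s ∈ Icc 0 T, g' s ≤ φ s := by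
    intro s hs
    obtain ⟨f1, f2, -, f4⟩ := frwC X μ b om M p v η T t0 R ons frq hη hη1 hT w s hs
    have hc0 : v 0 t0 * Real.cos (om 0 * s) - p 0 t0 * Real.sin (om 0 * s) =
        R * Real.cos (om 0 * s + θ) := by
      rw [hθc, hθs, Real.cos_add]; ring
    have hs0 : p 0 t0 * Real.cos (om 0 * s) + v 0 t0 * Real.sin (om 0 * s) =
        R * Real.sin (om 0 * s + θ) := by
      rw [hθc, hθs, Real.sin_add]; ring
    rw [hc0] at f1
    rw [hs0] at f2
    have hw0 := (w.w0 s hs).2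
    have hw2 := w.w2 s hs
    have hw2' := w.w2 0 ⟨le_refl _, hT0.le⟩
    rw [add_zero] at hw2'
    have hv2 : |v 0 (t0 + s)| ≤ 2 * R := by
      unfold R2 at hw0
      refine abs_le_of_sq_le_sq ?_ (by positivity)
      nlinarith [sq_nonneg (p 0 (t0 + s))]
    have hcR : |R * Real.cos (om 0 * s + θ)| ≤ R := by
      rw [abs_mul, abs_of_pos hR]
      exact mul_le_of_le_one_right hR.le (Real.abs_cos_le_one _)
    have hsR : |om 0 * (R * Real.sin (om 0 * s + θ))| ≤ 2 * R := by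
      rw [abs_mul, abs_mul, abs_of_pos hR, abs_of_pos hom0]
      have h1 : R * |Real.sin (om 0 * s + θ)| ≤ R :=
        mul_le_of_le_one_right hR.le (Real.abs_sin_le_one _)
      exact mul_le_mul hom2 h1 (by positivity) (by norm_num)
    have hht2 : ∫ x, vel b S (dd v) (t0 + s) x ^ 2 ∂μ ≤ (4 * R) ^ 2 := by
      have h1 := pars S (fun k => dd v k (t0 + s))
      have h2 : (∫ x, vel b S (dd v) (t0 + s) x ^ 2 ∂μ) = ∑ k ∈ S, dd v k (t0 + s) ^ 2 := h1
      rw [h2]
      refine le_trans ?_ hw2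
      unfold S2
      exact Finset.sum_le_sum fun k _ => by nlinarith [sq_nonneg (om k * v k (t0 + s))]
    have hone : ∫ x, b 0 x ^ 2 ∂μ = 1 := by
      have h1 := ons.ort 0 0
      simp only [if_true] at h1
      rw [← h1]
      refine integral_congr_ae (Filter.Eventually.of_forall fun x => ?_)
      simp only
      ring
    have hB : ∀ x, |b 0 x| ≤ B := ons.bdd 0
    have hhB : ∀ x, |vel b S v (t0 + s) x| ≤ 16 * B * R := by
      intro x
      have h1 := w.w3 s hs x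
      rw [hvel] at h1
      have h2 : |v 0 (t0 + s) * b 0 x| ≤ 2 * R * B := by
        rw [abs_mul]
        exact mul_le_mul hv2 (hB x) (abs_nonneg _) (by positivity)
      have h3 : vel b S v (t0 + s) x = (v 0 (t0 + s) * b 0 x + vel b S v (t0 + s) x) -
        v 0 (t0 + s) * b 0 x := by ring
      rw [h3]
      refine (abs_sub _ _).trans ?_
      nlinarith
    have main := stp (μ := μ) (b0 := b 0) (h := fun x => vel b S v (t0 + s) x)
      (ht := fun x => vel b S (dd v) (t0 + s) x) (f := fun x => fre b om S P V s x)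
      (al := al) (B := B) (CT := CT) (CF := CF) (R := R) (δ := δ) (σ := σ)
      (v0 := v 0 (t0 + s)) (V := dd v 0 (t0 + s)) (c0 := R * Real.cos (om 0 * s + θ))
      (s0 := om 0 * (R * Real.sin (om 0 * s + θ)))
      hal hB0 hCT hCF hR hδ0 hσ hδR hb0 (Bm.sum S hb _) (Bm.sum S hb _)
      (fre_bm ons.meas ons.bdd om S P V s) hB hone hv2 hcR hsR f1 f2 hht2
      ((hfre2 s).trans hw2') f4 (hhσ s hs) hhB
      (fun c h D hD hc hh => (tayC c h D hD hc hh).1)
    have hal2 := alg (al := al) (B := B) (CT := CT) (CF := CF) (R := R) (σ := σ) (T := T)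
      (m := min al 1) (min_le_right _ _) hB0 hCT hCF hR hσ hT0 hTR
    have main2 := main.trans hal2
    -- rewrite `g'`
    have hgs : g' s = -(2 * (al + 1) * ∫ x, |v 0 (t0 + s) * b 0 x + vel b S v (t0 + s) x| ^ al *
        (dd v 0 (t0 + s) * b 0 x + vel b S (dd v) (t0 + s) x) *
        vel b S (dd v) (t0 + s) x ∂μ) := by
      rw [hg']
      simp only
      rw [mul_assoc 2 (al + 1), ← integral_const_mul (al + 1)]
      refine congrArg (fun z : ℝ => -(2 * z)) ?_
      refine integral_congr_ae (Filter.Eventually.of_forall fun x => ?_)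
      simp only
      have h1 : |vel b (Finset.range M) v (t0 + s) x| ≤ 1 := (w.w3 s hs x).trans w.w4
      rw [qle h1, hvel, hvel]
      ring
    rw [hgs]
    have hRc : |R * Real.cos (om 0 * s + θ)| ^ al =
        R ^ al * |Real.cos (om 0 * s + θ)| ^ al := by
      rw [abs_mul, abs_of_pos hR, Real.mul_rpow hR.le (abs_nonneg _)]
    rw [hRc] at main2
    have main3 := (abs_le.mp main2).1
    have hal1 : 0 < 2 * (al + 1) := by positivity
    have main4 := mul_le_mul_of_nonneg_left main3 hal1.le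
    rw [hφ]
    simp only
    rw [e5]
    have hKe : CC * (σ ^ (min al 1) + (T * R ^ al) ^ (min al 1)) * R ^ (al + 2) = K := hK.symm
    rw [hKe] at main4
    have hAe : (∫ x, |b 0 x| ^ al * fre b om S P V s x ^ 2 ∂μ) = A s := rfl
    have hBe : (∫ x, |b 0 x| ^ al * b 0 x * fre b om S P V s x ∂μ) = Bf s := rfl
    rw [hAe, hBe] at main4
    nlinarith
  have hcont : ContinuousOn (fun s => S2 om M v (t0 + s)) (Icc 0 T) :=
    fun s _ => (hder s).continuousAt.continuousWithinAt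
  have hint := intervalIntegral.sub_le_integral_of_hasDeriv_right_of_le (g := fun s =>
    S2 om M v (t0 + s)) (g' := g') (φ := φ) hT0.le hcont
    (fun s _ => (hder s).hasDerivWithinAt) hφc.integrableOn_Icc
    (fun s hs => key s ⟨hs.1.le, hs.2.le⟩)
  simp only [add_zero] at hint
  -- the integral of `φ`
  have hφi : (∫ s in (0 : ℝ)..T, φ s) =
      -(2 * (al + 1) * R ^ al) * (∫ s in (0 : ℝ)..T, |Real.cos (om 0 * s + θ)| ^ al * A s) +
      (2 * (al + 1) * (om 0 * R ^ (al + 1))) * (∫ s in (0 : ℝ)..T,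
        |Real.cos (om 0 * s + θ)| ^ al * Real.sin (om 0 * s + θ) * Bf s) +
      2 * (al + 1) * K * T := by
    rw [hφ]
    rw [intervalIntegral.integral_add, intervalIntegral.integral_add,
      intervalIntegral.integral_const_mul, intervalIntegral.integral_const_mul,
      intervalIntegral.integral_const]
    · simp only [sub_zero, smul_eq_mul]
      ring
    · exact (continuous_const.mul hc1).intervalIntegrable _ _
    · exact (continuous_const.mul hc2).intervalIntegrable _ _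
    · exact ((continuous_const.mul hc1).add (continuous_const.mul hc2)).intervalIntegrable _ _
    · exact continuous_const.intervalIntegrable _ _
  have ha1 := avg.a1 S P V θ h0S
  have ha3 := avg.a3 S P V θ h0S
  have ha1' : (γ - ε) * T * S2 om M v t0 ≤
      ∫ s in (0 : ℝ)..T, |Real.cos (om 0 * s + θ)| ^ al * A s := ha1
  have ha3' : (∫ s in (0 : ℝ)..T, |Real.cos (om 0 * s + θ)| ^ al *
      Real.sin (om 0 * s + θ) * Bf s) ≤ ε * T * Real.sqrt (S2 om M v t0) :=
    (abs_le.mp ha3).2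
  rw [hφi] at hint
  have u1 := mul_le_mul_of_nonneg_left ha1' (by positivity : 0 ≤ 2 * (al + 1) * R ^ al)
  have hR1 : 0 < R ^ (al + 1) := Real.rpow_pos_of_pos hR _
  have u2 := mul_le_mul_of_nonneg_left ha3'
    (by positivity : 0 ≤ 2 * (al + 1) * (om 0 * R ^ (al + 1)))
  have u3 : 2 * (al + 1) * (om 0 * R ^ (al + 1)) * (ε * T * Real.sqrt (S2 om M v t0)) ≤
      2 * (al + 1) * (2 * R ^ (al + 1)) * (ε * T * Real.sqrt (S2 om M v t0)) := by
    refine mul_le_mul_of_nonneg_right ?_ (by positivity)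
    refine mul_le_mul_of_nonneg_left ?_ (by positivity)
    exact mul_le_mul_of_nonneg_right hom2 hR1.le
  have hfinal : 2 * (al + 1) * CC * (σ ^ (min al 1) + (T * R ^ al) ^ (min al 1)) * T *
      R ^ (al + 2) = 2 * (al + 1) * K * T := by rw [hK]; ring
  rw [hfinal]
  nlinarith

end

end Pool.Agent.BEW.H40
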